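import Pool.Agent.Q34.ZS.Near

/-!
# Distinct zeros of all Dirichlet L-functions in ALL short intervals near the multiples of a sequence

For a primitive Dirichlet character `χ` let `N(a, b)` be the number of the nontrivial zeros of `L(s, χ)` with ordinate in
`(a, b]`, with multiplicity, and `Nd(a, b)` the number of the distinct ones; `c(h) = h/2 + cot(h/√2)/√2 ≤ 1/h + h/3`,
`A_j(η) = (2 j + 1 - c((1 + η)/2)) / (j (j + 1))` (`A_1(η)` tends to the Montgomery-Taylor constant `0.8362...` for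
`η → 1`, and `A_2(η) > 17/36` for all `η > 0`). For `0 < η < 1` and `ε > 0` call the integer `m` good for `χ` if for ALL
real `t ∈ [m, m + 1)` and ALL `H` with `t ^ η ≤ H ≤ t / 16` we have `Nd(t, t + H) ≥ (A_j(η) - ε) N(t, t + H)`.
Unconditionally, for all `χ` and every `j ≥ 1`:

1. all but at most `C Y ^ (1 - δ)` of the integers `m ≤ Y` are good, `δ = δ(χ, j, η, ε) > 0`;
2. for every sequence `v ≥ 1` of exponent of convergence at most `τ` and every `θ < 1`, for all `α > 0` outside a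
   set of Hausdorff dimension at most `(1 - δ + τ) / (1 - θ)`, all but finitely many of the integers `m` with
   `|m - α v_n| ≤ v_n ^ θ` for some `n` are good;
3. for `κ > 1` there is ONE set of dimension less than one such that for all `α > 0` outside of it, ALL primitive
   characters of all moduli, all `j` and all rational `η`, `ε`, all but at most `N ^ (1 - δ)` of the integers
   `⌊α n ^ κ⌋`, `n ≤ N`, are good.
-/

set_option autoImplicit false

open Filter Topology Complex MeasureTheory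

namespace Pool.Agent.Results.MP_f259ea_nt.AllCharactersNearSequences

section

variable {q : ℕ} [NeZero q] (χ : DirichletCharacter ℂ q)

/-- the multiplicity of `s` as a zero of `L(s, χ)` -/
noncomputable def mult (s : ℂ) : ℕ := analyticOrderNatAt (DirichletCharacter.LFunction χ) s

/-- the nontrivial zeros of `L(s, χ)` with ordinate in `(T₁, T₂]` -/
def zeros (T₁ T₂ : ℝ) : Set ℂ :=
  {s : ℂ | DirichletCharacter.LFunction χ s = 0 ∧ 0 < s.re ∧ s.re < 1 ∧ T₁ < s.im ∧ s.im ≤ T₂}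

/-- the number of nontrivial zeros with ordinate in `(T₁, T₂]`, counted with multiplicity -/
noncomputable def N (T₁ T₂ : ℝ) : ℕ := ∑ᶠ s ∈ zeros χ T₁ T₂, mult χ s

/-- the number of distinct nontrivial zeros with ordinate in `(T₁, T₂]` -/
noncomputable def Nd (T₁ T₂ : ℝ) : ℕ := (zeros χ T₁ T₂).ncard

/-- the proportion `a` of distinct zeros in all intervals of length at least `t ^ η` starting in `[m, m + 1)` -/
def Good (a η : ℝ) (m : ℕ) : Prop :=
  ∀ t : ℝ, (m : ℝ) ≤ t → t < m + 1 → ∀ H : ℝ, t ^ η ≤ H → H ≤ t / 16 →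
    a * (N χ t (t + H) : ℝ) ≤ (Nd χ t (t + H) : ℝ)

end

/-- the constant `c(h) = h/2 + cot(h/√2)/√2`; `c(1) = 1.3274...` -/
noncomputable def c (h : ℝ) : ℝ := h / 2 + Real.cot (h / Real.sqrt 2) / Real.sqrt 2

/-- the proportions `A_j(η)` -/
noncomputable def A (j : ℕ) (η : ℝ) : ℝ := (2 * j + 1 - c ((1 + η) / 2)) / (j * (j + 1))

/-- the exponent of convergence of the sequence `v` is at most `τ` -/
def ExpLe (v : ℕ → ℝ) (τ : ℝ) : Prop := ∀ t : ℝ, τ < t → Summable (fun n : ℕ => (v n) ^ (-t))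

section

variable {q : ℕ} [NeZero q] (χ : DirichletCharacter ℂ q)

theorem zeros_eq (T₁ T₂ : ℝ) : zeros χ T₁ T₂ = H370.zset (DirichletCharacter.LFunction χ) T₁ T₂ := by
  ext s
  simp only [zeros, H370.zset, Set.mem_ofPred_eq]
  tauto

/-- the sets of zeros that are counted are finite -/
theorem zeros_finite (hχ : χ.IsPrimitive) (T₁ T₂ : ℝ) (h : 0 < T₁) : (zeros χ T₁ T₂).Finite := by
  rw [zeros_eq]
  exact H370.zset_finite' (H370.good_dirichlet χ hχ) T₁ T₂ h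

theorem N_eq (T₁ T₂ : ℝ) : N χ T₁ T₂ = H370.NN (DirichletCharacter.LFunction χ) T₁ T₂ := by
  unfold N H370.NN
  rw [zeros_eq]
  rfl

theorem Nd_eq (T₁ T₂ : ℝ) : Nd χ T₁ T₂ = H370.Nd (DirichletCharacter.LFunction χ) T₁ T₂ := by
  unfold Nd H370.Nd
  rw [zeros_eq]

theorem good_iff (a η : ℝ) (m : ℕ) : Good χ a η m ↔
    Pool.Agent.Q34.ZS.GoodAt (DirichletCharacter.LFunction χ)
      (fun a b => (H370.Nd (DirichletCharacter.LFunction χ) a b : ℝ)) a η m := by
  unfold Good Pool.Agent.Q34.ZS.GoodAt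
  simp only [N_eq, Nd_eq]

theorem law (hχ : χ.IsPrimitive) (j : ℕ) (hj : 1 ≤ j) :
    Pool.Agent.Q34.ZS.Law (DirichletCharacter.LFunction χ)
      (fun a b => (H370.Nd (DirichletCharacter.LFunction χ) a b : ℝ))
      (fun η => (2 * j + 1 - H295SI.cc ((1 + η) / 2)) / (j * (j + 1))) := by
  rcases eq_or_ne χ 1 with h | h
  · have hq : q = 1 := by
      rw [h, DirichletCharacter.IsPrimitive, DirichletCharacter.conductor_one] at hχ
      exact hχ.symm
    subst hq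
    rw [DirichletCharacter.LFunction_modOne_eq]
    exact Pool.Agent.Q34.ZS.law_distinct j hj H370.good_zeta Pool.Agent.TH822.AA.bz_z
  · exact Pool.Agent.Q34.ZS.law_distinct j hj (H370.good_dirichlet χ hχ) (Pool.Agent.TH822.AA.bz_d χ hχ h)

end

/-- the primitive characters of all moduli and the numbers `j` -/
abbrev Ix : Type := (Σ n : ℕ, {χ : DirichletCharacter ℂ (n + 1) // χ.IsPrimitive}) × {j : ℕ // 1 ≤ j}

instance : Countable Ix := by
  have : ∀ n : ℕ, Countable {χ : DirichletCharacter ℂ (n + 1) // χ.IsPrimitive} := fun n => by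
    have : Finite (DirichletCharacter ℂ (n + 1)) := inferInstance
    infer_instance
  infer_instance

open Classical in
/-- **Distinct zeros of all Dirichlet L-functions in all short intervals near the multiples of a sequence.** -/
theorem result :
    (∀ (q : ℕ) [NeZero q] (χ : DirichletCharacter ℂ q), χ.IsPrimitive →
      ∀ (j : ℕ) (η ε : ℝ), 1 ≤ j → 0 < η → η < 1 → 0 < ε → ∃ δ : ℝ, 0 < δ ∧ δ < 1 ∧
      -- few bad integers
      (∃ C : ℝ, ∀ Y : ℕ, (((Finset.Ioc 0 Y).filter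
        (fun m : ℕ => ¬ Good χ (A j η - ε) η m)).card : ℝ) ≤ C * (Y : ℝ) ^ (1 - δ)) ∧
      -- windows around the members of `α v`
      ∀ (v : ℕ → ℝ) (τ θ : ℝ), (∀ n, 1 ≤ v n) → 0 ≤ τ → ExpLe v τ → θ < 1 →
      ∃ E : Set ℝ, dimH E ≤ ENNReal.ofReal ((1 - δ + τ) / (1 - θ)) ∧ ∀ α : ℝ, 0 < α → α ∉ E →
        ∃ n₀ : ℕ, ∀ n : ℕ, n₀ ≤ n → ∀ m : ℕ, |(m : ℝ) - α * v n| ≤ (v n) ^ θ → Good χ (A j η - ε) η m) ∧
    -- the integers `⌊α n ^ κ⌋`, all characters
    (∀ κ : ℝ, 1 < κ → ∃ E : Set ℝ, dimH E < 1 ∧ ∀ α : ℝ, 0 < α → α ∉ E →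
      ∀ (q : ℕ) [NeZero q] (χ : DirichletCharacter ℂ q), χ.IsPrimitive →
      ∀ (j : ℕ) (η ε : ℚ), 1 ≤ j → 0 < η → η < 1 → 0 < ε →
      ∃ δ : ℝ, 0 < δ ∧ δ < 1 ∧ ∃ N₀ : ℕ, ∀ N : ℕ, N₀ ≤ N →
        (((Finset.Icc 1 N).filter (fun n : ℕ =>
          ¬ Good χ (A j η - ε) η ⌊α * (n : ℝ) ^ κ⌋₊)).card : ℝ) ≤ (N : ℝ) ^ (1 - δ)) ∧
    -- the constants
    (∀ h : ℝ, 0 < h → h ≤ 1 → c h ≤ 1 / h + h / 3) ∧
    (∀ η : ℝ, 0 < η → η < 1 → 17 / 36 < A 2 η) ∧
    -- exponents of convergence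
    (∀ κ : ℝ, 0 < κ → ExpLe (fun n : ℕ => ((n : ℝ) + 1) ^ κ) (1 / κ)) ∧
    (∀ b : ℝ, 1 < b → ExpLe (fun n : ℕ => b ^ n) 0) := by
  refine ⟨fun q _ χ hχ j η ε hj h0 h1 hε => ?_, fun κ hκ => ?_, H295SI.cc_le, fun η h0 h1 => ?_,
    fun κ hκ => Pool.Agent.Y854.GM.expLe_pow κ hκ, fun b hb => Pool.Agent.Y854.GM.expLe_geom b hb⟩
  · obtain ⟨δ₁, hδ₁, hδ₁1, C, hC⟩ := law χ hχ j hj η ε h0 h1 hε
    obtain ⟨δ₂, hδ₂, hδ₂1, hwin⟩ := (law χ hχ j hj).windows h0 h1 hε
    refine ⟨min δ₁ δ₂, lt_min hδ₁ hδ₂, (min_le_left _ _).trans_lt hδ₁1, ⟨|C|, fun Y => ?_⟩,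
      fun v τ θ hv hτ hE hθ => ?_⟩
    · rcases Nat.eq_zero_or_pos Y with rfl | hY
      · simp only [Finset.Ioc_self, Finset.filter_empty, Finset.card_empty, Nat.cast_zero]
        positivity
      have hY1 : (1 : ℝ) ≤ Y := by exact_mod_cast hY
      have h2 := hC Y
      calc (((Finset.Ioc 0 Y).filter
          (fun m : ℕ => ¬ Good χ (A j η - ε) η m)).card : ℝ)
          ≤ C * (Y : ℝ) ^ (1 - δ₁) := by
            refine le_trans (Nat.cast_le.2 (Finset.card_le_card fun m hm => ?_)) h2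
            rw [Finset.mem_filter] at hm ⊢
            exact ⟨hm.1, fun hg => hm.2 ((good_iff χ _ _ _).2 hg)⟩
        _ ≤ |C| * (Y : ℝ) ^ (1 - min δ₁ δ₂) := by
            apply mul_le_mul (le_abs_self C) _ (by positivity) (abs_nonneg _)
            apply Real.rpow_le_rpow_of_exponent_le hY1
            linarith [min_le_left δ₁ δ₂]
    · obtain ⟨E, hEd, hE2⟩ := hwin v τ θ hv hτ hE hθ
      refine ⟨E, hEd.trans (ENNReal.ofReal_le_ofReal ?_), fun α hα hαE => ?_⟩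
      · apply div_le_div_of_nonneg_right _ (by linarith)
        linarith [min_le_right δ₁ δ₂]
      · obtain ⟨n₀, hn⟩ := hE2 α hα hαE
        exact ⟨n₀, fun n hn1 m hm => (good_iff χ _ _ _).2 (hn n hn1 m hm)⟩
  · obtain ⟨E, hE, h⟩ := Pool.Agent.Q34.ZS.Law.pow hκ (ι := Ix)
      (fun i => DirichletCharacter.LFunction i.1.2.1)
      (fun i a b => (H370.Nd (DirichletCharacter.LFunction i.1.2.1) a b : ℝ))
      (fun i η => (2 * (i.2 : ℕ) + 1 - H295SI.cc ((1 + η) / 2)) / ((i.2 : ℕ) * ((i.2 : ℕ) + 1)))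
      (fun i => law i.1.2.1 i.1.2.2 i.2.1 i.2.2)
    refine ⟨E, hE, fun α hα hαE q _ χ hχ j η ε hj h0 h1 hε => ?_⟩
    obtain ⟨n, rfl⟩ : ∃ n : ℕ, q = n + 1 := ⟨q - 1, by have := NeZero.ne q; omega⟩
    obtain ⟨δ, hδ, hδ1, N₀, hN⟩ := h α hα hαE (⟨n, χ, hχ⟩, ⟨j, hj⟩) η ε h0 h1 hε
    refine ⟨δ, hδ, hδ1, N₀, fun N hNN => le_trans ?_ (hN N hNN)⟩
    refine Nat.cast_le.2 (Finset.card_le_card fun n hn => ?_)
    rw [Finset.mem_filter] at hn ⊢
    exact ⟨hn.1, fun hg => hn.2 ((good_iff χ _ _ _).2 hg)⟩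
  · have h2 : c ((1 + η) / 2) ≤ 1 / ((1 + η) / 2) + (1 + η) / 2 / 3 :=
      H295SI.cc_le ((1 + η) / 2) (by linarith) (by linarith)
    have h3 : 1 / ((1 + η) / 2) + (1 + η) / 2 / 3 < 13 / 6 := by
      rw [one_div_div, div_add_div _ _ (by linarith) (by norm_num), div_lt_div_iff₀ (by linarith)
        (by norm_num)]
      nlinarith
    unfold A
    rw [lt_div_iff₀ (by norm_num)]
    push_cast
    linarith

end Pool.Agent.Results.MP_f259ea_nt.AllCharactersNearSequences
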