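import Pool.Agent.Q27.CS1
import Pool.Agent.Y762.CosetL

/-!
# Distinct zeros of Dirichlet L-functions in families with a prescribed restriction to a subgroup

Let `H` be a subgroup of `(ℤ/q)ˣ`, `χ₁` a character modulo `q` and `family H χ₁` the set of all characters `χ`
modulo `q` with `χ = χ₁` on `H` (there are `φ(q)/#H` of them: all characters for `H = 1`, the even or the odd ones
for `H = {±1}`). For `#H ≤ (q T)^a`, `0 ≤ a < 1`, from the height
`T ≥ C (1 + √(log q) + (#H - 1) (1 + log q)²)` on, and uniformly in `q`, `H` and `χ₁`, the sum over the family of the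
numbers of distinct zeros with `T < Im s ≤ 2 T` is at least `(2 j + 1 - c(1 - a) - ε) / (j (j + 1))` times the sum of
the numbers of zeros counted with multiplicity, for the integers `j ≤ J`; in particular at least
`3 h / (3 + h²) - ε` times, `h = 1 - a`. For small subgroups the proportion is at least `0.83625`.
-/

set_option autoImplicit false

namespace Pool.Agent.Results.MP_f259ea_nt.CosetFamilies

/-- the nontrivial zeros of `L(s, χ)` with ordinate in `(T₁, T₂]` -/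
def zeros {q : ℕ} [NeZero q] (χ : DirichletCharacter ℂ q) (T₁ T₂ : ℝ) : Set ℂ :=
  {s : ℂ | DirichletCharacter.LFunction χ s = 0 ∧ 0 < s.re ∧ s.re < 1 ∧ T₁ < s.im ∧ s.im ≤ T₂}

/-- the number of nontrivial zeros with ordinate in `(T₁, T₂]`, counted with multiplicity -/
noncomputable def N {q : ℕ} [NeZero q] (χ : DirichletCharacter ℂ q) (T₁ T₂ : ℝ) : ℕ :=
  ∑ᶠ s ∈ zeros χ T₁ T₂, analyticOrderNatAt (DirichletCharacter.LFunction χ) s

/-- the number of distinct nontrivial zeros with ordinate in `(T₁, T₂]` -/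
noncomputable def Nd {q : ℕ} [NeZero q] (χ : DirichletCharacter ℂ q) (T₁ T₂ : ℝ) : ℕ :=
  (zeros χ T₁ T₂).ncard

/-- the constant `c(h) = h/2 + cot(h/√2)/√2`; `c(1) = c_MT⁻¹` -/
noncomputable def c (h : ℝ) : ℝ := h / 2 + Real.cot (h / Real.sqrt 2) / Real.sqrt 2

open Classical in
/-- the characters modulo `q` which agree with `χ₁` on the subgroup `H` -/
noncomputable def family {q : ℕ} [NeZero q] (H : Subgroup (ZMod q)ˣ)
    (χ₁ : DirichletCharacter ℂ q) : Finset (DirichletCharacter ℂ q) :=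
  Finset.univ.filter fun χ => ∀ h ∈ H, χ (h : ZMod q) = χ₁ (h : ZMod q)

/-- the sum of the numbers of zeros, counted with multiplicity -/
noncomputable def SN {q : ℕ} [NeZero q] (H : Subgroup (ZMod q)ˣ) (χ₁ : DirichletCharacter ℂ q)
    (T : ℝ) : ℝ := ∑ χ ∈ family H χ₁, (N χ T (2 * T) : ℝ)

/-- the sum of the numbers of distinct zeros -/
noncomputable def SNd {q : ℕ} [NeZero q] (H : Subgroup (ZMod q)ˣ) (χ₁ : DirichletCharacter ℂ q)
    (T : ℝ) : ℝ := ∑ χ ∈ family H χ₁, (Nd χ T (2 * T) : ℝ)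

/-- the height from which the theorem holds, up to a constant factor -/
noncomputable def height {q : ℕ} [NeZero q] (H : Subgroup (ZMod q)ˣ) : ℝ :=
  1 + Real.sqrt (Real.log q) + ((Nat.card H : ℝ) - 1) * (1 + Real.log q) ^ 2

theorem zeros_eq {q : ℕ} [NeZero q] (χ : DirichletCharacter ℂ q) (T₁ T₂ : ℝ) :
    zeros χ T₁ T₂ = H370.zset (DirichletCharacter.LFunction χ) T₁ T₂ := by
  ext s
  simp only [zeros, H370.zset, Set.mem_ofPred_eq]
  tauto

theorem N_eq {q : ℕ} [NeZero q] (χ : DirichletCharacter ℂ q) (T₁ T₂ : ℝ) :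
    N χ T₁ T₂ = H370.NN (DirichletCharacter.LFunction χ) T₁ T₂ := by
  unfold N H370.NN H370.mult
  rw [zeros_eq]

theorem Nd_eq {q : ℕ} [NeZero q] (χ : DirichletCharacter ℂ q) (T₁ T₂ : ℝ) :
    Nd χ T₁ T₂ = H370.Nd (DirichletCharacter.LFunction χ) T₁ T₂ := by
  unfold Nd H370.Nd
  rw [zeros_eq]

theorem family_eq {q : ℕ} [NeZero q] (H : Subgroup (ZMod q)ˣ) (χ₁ : DirichletCharacter ℂ q) :
    family H χ₁ = Pool.Agent.Y762.coset H χ₁ := by
  ext χ
  rw [Pool.Agent.Y762.mem_coset]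
  unfold family
  simp

theorem SN_eq {q : ℕ} [NeZero q] (H : Subgroup (ZMod q)ˣ) (χ₁ : DirichletCharacter ℂ q) (T : ℝ) :
    SN H χ₁ T = ∑ χ ∈ Pool.Agent.Y762.coset H χ₁,
      (H370.NN (DirichletCharacter.LFunction χ) T (2 * T) : ℝ) := by
  unfold SN
  rw [family_eq]
  exact Finset.sum_congr rfl fun χ _ => by rw [N_eq]

theorem SNd_eq {q : ℕ} [NeZero q] (H : Subgroup (ZMod q)ˣ) (χ₁ : DirichletCharacter ℂ q) (T : ℝ) :
    SNd H χ₁ T = ∑ χ ∈ Pool.Agent.Y762.coset H χ₁,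
      (H370.Nd (DirichletCharacter.LFunction χ) T (2 * T) : ℝ) := by
  unfold SNd
  rw [family_eq]
  exact Finset.sum_congr rfl fun χ _ => by rw [Nd_eq]

/-- some chord of `1/x` -/
theorem chord (h : ℝ) (h0 : 0 < h) (h1 : h ≤ 1) : ∃ j : ℕ, 1 ≤ j ∧
    3 * h / (3 + h ^ 2) ≤ (2 * j + 1 - c h) / (j * (j + 1)) := by
  set u : ℝ := 1 / h + h / 3 with hu
  have hu1 : 1 ≤ u := by
    rw [hu]
    have : 1 ≤ 1 / h := by rw [le_div_iff₀ h0]; linarith
    have : 0 ≤ h / 3 := by positivity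
    linarith
  have hinv : 3 * h / (3 + h ^ 2) = 1 / u := by
    rw [hu]; field_simp
  have hj1 : 1 ≤ ⌊u⌋₊ := Nat.le_floor (by simpa using hu1)
  have hju : ((⌊u⌋₊ : ℕ) : ℝ) ≤ u := Nat.floor_le (by linarith)
  have huj : u < (⌊u⌋₊ : ℕ) + 1 := Nat.lt_floor_add_one u
  refine ⟨⌊u⌋₊, hj1, ?_⟩
  have hjr : (1:ℝ) ≤ ((⌊u⌋₊ : ℕ) : ℝ) := by exact_mod_cast hj1
  set j : ℝ := ((⌊u⌋₊ : ℕ) : ℝ) with hjd
  have hcu : c h ≤ u := Pool.Agent.Q27.CS.cH_le h h0 h1
  rw [hinv, div_le_div_iff₀ (by linarith) (by positivity)]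
  have h3 : (2 * j + 1 - u) * u ≤ (2 * j + 1 - c h) * u :=
    mul_le_mul_of_nonneg_right (by linarith) (by linarith)
  nlinarith [mul_nonneg (sub_nonneg.mpr hju) (sub_nonneg.mpr huj.le)]

/-- **distinct zeros of Dirichlet L-functions in families** -/
theorem result :
    (∀ (J : ℕ) (a ε : ℝ), 0 ≤ a → a < 1 → 0 < ε → ∃ C ζ : ℝ, 1 ≤ C ∧ 0 < ζ ∧
      ∀ (q : ℕ) [NeZero q] (H : Subgroup (ZMod q)ˣ) (χ₁ : DirichletCharacter ℂ q) (T : ℝ),
        C * height H ≤ T → (Nat.card H : ℝ) ≤ (q * T) ^ a →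
        ((Nat.card H : ℝ) ≤ (q * T) ^ ζ ∨
          ∑ χ ∈ family H χ₁, (Real.log q - Real.log χ.conductor) ≤
            ζ * Real.log (q * T) * ((family H χ₁).card : ℝ)) →
        (∀ χ ∈ family H χ₁, (zeros χ T (2 * T)).Finite) ∧
        (1 - ε) * (T / (2 * Real.pi) * Real.log (q * T)) * ((family H χ₁).card : ℝ) ≤ SN H χ₁ T ∧
        (∀ j : ℕ, 1 ≤ j → j ≤ J →
          ((2 * j + 1 - c (1 - a)) / (j * (j + 1)) - ε) * SN H χ₁ T ≤ SNd H χ₁ T) ∧
        (3 * (1 - a) / (3 + (1 - a) ^ 2) - ε) * SN H χ₁ T ≤ SNd H χ₁ T) ∧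
    -- small subgroups: more than 83.62 per cent
    (∃ C ζ : ℝ, 1 ≤ C ∧ 0 < ζ ∧
      ∀ (q : ℕ) [NeZero q] (H : Subgroup (ZMod q)ˣ) (χ₁ : DirichletCharacter ℂ q) (T : ℝ),
        C * height H ≤ T → (Nat.card H : ℝ) ≤ (q * T) ^ ζ →
        0.83625 * SN H χ₁ T ≤ SNd H χ₁ T) ∧
    -- the constants
    (∀ h : ℝ, 0 < h → h ≤ 1 → c h ≤ 1 / h + h / 3) := by
  refine ⟨?_, ?_, Pool.Agent.Q27.CS.cH_le⟩
  · intro J a ε ha0 ha1 hε
    have h0 : 0 < 1 - a := by linarith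
    have h1 : 1 - a ≤ 1 := by linarith
    obtain ⟨j₀, hj₀, hch⟩ := chord (1 - a) h0 h1
    choose Cj ζj hCj hζj Hj using
      fun j : ℕ => Pool.Agent.Y762.coset_j (j + 1) (by omega) a ε ha0 ha1 hε
    have hζs : ∃ ζ : ℝ, 0 < ζ ∧ ζ ≤ 1 ∧ ∀ j ∈ Finset.range (J + j₀), ζ ≤ ζj j := by
      have : ∀ n : ℕ, ∃ ζ : ℝ, 0 < ζ ∧ ζ ≤ 1 ∧ ∀ j ∈ Finset.range n, ζ ≤ ζj j := by
        intro n
        induction n with
        | zero => exact ⟨1, one_pos, le_rfl, fun j hj => by simp at hj⟩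
        | succ n ih =>
          obtain ⟨ζ, z0, z1, z2⟩ := ih
          refine ⟨min ζ (ζj n), lt_min z0 (hζj n), (min_le_left _ _).trans z1, fun j hj => ?_⟩
          rcases Nat.lt_succ_iff_lt_or_eq.mp (Finset.mem_range.mp hj) with hjn | hjn
          · exact (min_le_left _ _).trans (z2 j (Finset.mem_range.mpr hjn))
          · rw [hjn]; exact min_le_right _ _
      exact this _
    obtain ⟨ζ, hζ0, hζ1, hζ2⟩ := hζs
    have hs : ∀ n : ℕ, 0 ≤ ∑ j ∈ Finset.range n, Cj j := fun n =>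
      Finset.sum_nonneg fun j _ => by linarith [hCj j]
    refine ⟨1 + ∑ j ∈ Finset.range (J + j₀), Cj j, ζ, by linarith [hs (J + j₀)], hζ0, ?_⟩
    intro q _ H χ₁ T hT hcard hcase
    have hq1 : (1 : ℝ) ≤ q := by exact_mod_cast (NeZero.one_le : 1 ≤ q)
    have hlq : 0 ≤ Real.log q := Real.log_nonneg hq1
    have hm1 : (1 : ℝ) ≤ (Nat.card H : ℝ) := by exact_mod_cast Nat.card_pos
    have hh1 : 1 ≤ height H := by
      unfold height
      have h2 := Real.sqrt_nonneg (Real.log q)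
      have h3 : 0 ≤ ((Nat.card H : ℝ) - 1) * (1 + Real.log q) ^ 2 := by
        have : 0 ≤ (Nat.card H : ℝ) - 1 := by linarith
        positivity
      linarith
    have hT1 : 1 ≤ T := by
      refine le_trans ?_ hT
      nlinarith [hs (J + j₀)]
    have hqT : 1 ≤ (q : ℝ) * T := one_le_mul_of_one_le_of_one_le hq1 hT1
    have hlog : 0 ≤ Real.log (q * T) := Real.log_nonneg hqT
    have main : ∀ i ∈ Finset.range (J + j₀),
        (((2 * ((i + 1 : ℕ) : ℝ) + 1 - c (1 - a)) /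
          (((i + 1 : ℕ) : ℝ) * (((i + 1 : ℕ) : ℝ) + 1)) - ε) * SN H χ₁ T ≤ SNd H χ₁ T) ∧
        (1 - ε) * (T / (2 * Real.pi) * Real.log (q * T)) * ((family H χ₁).card : ℝ) ≤
          SN H χ₁ T := by
      intro i hi
      have hCi : Cj i ≤ 1 + ∑ j ∈ Finset.range (J + j₀), Cj j := by
        have := Finset.single_le_sum (f := Cj) (fun x _ => by linarith [hCj x]) hi
        linarith
      have hTi : Cj i * (1 + Real.sqrt (Real.log q) +
          ((Nat.card H : ℝ) - 1) * (1 + Real.log q) ^ 2) ≤ T :=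
        (mul_le_mul_of_nonneg_right hCi (by linarith [hh1] : (0:ℝ) ≤ height H)).trans hT
      have hcase' : ((Nat.card H : ℝ) ≤ (q * T) ^ ζj i ∨
          ∑ χ ∈ Pool.Agent.Y762.coset H χ₁, (Real.log q - Real.log χ.conductor) ≤
            ζj i * Real.log (q * T) * ((Pool.Agent.Y762.coset H χ₁).card : ℝ)) := by
        rcases hcase with h | h
        · exact Or.inl (h.trans (Real.rpow_le_rpow_of_exponent_le hqT (hζ2 i hi)))
        · right
          rw [← family_eq]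
          refine h.trans ?_
          have := hζ2 i hi
          gcongr
      obtain ⟨r1, r2⟩ := Hj i q H χ₁ T hTi hcard hcase'
      rw [← SN_eq, ← SNd_eq] at r1
      rw [← SN_eq, ← family_eq] at r2
      refine ⟨?_, r2⟩
      have hN0 : 0 ≤ SN H χ₁ T := Finset.sum_nonneg fun _ _ => Nat.cast_nonneg _
      have hjr : (1:ℝ) ≤ ((i + 1 : ℕ) : ℝ) := by
        push_cast; have : (0:ℝ) ≤ i := Nat.cast_nonneg i; linarith
      have hJ : (1:ℝ) ≤ ((i + 1 : ℕ) : ℝ) * (((i + 1 : ℕ) : ℝ) + 1) := by nlinarith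
      have hcc : c (1 - a) = Pool.Agent.Y762.cH (1 - a) := rfl
      have h3 : ((2 * ((i + 1 : ℕ) : ℝ) + 1 - c (1 - a)) /
          (((i + 1 : ℕ) : ℝ) * (((i + 1 : ℕ) : ℝ) + 1)) - ε) *
          (((i + 1 : ℕ) : ℝ) * (((i + 1 : ℕ) : ℝ) + 1)) ≤
          2 * ((i + 1 : ℕ) : ℝ) + 1 - (Pool.Agent.Y762.cH (1 - a) + ε) := by
        rw [sub_mul, div_mul_cancel₀ _ (by positivity), hcc]
        nlinarith
      have h4 := mul_le_mul_of_nonneg_right h3 hN0
      refine le_of_mul_le_mul_left (a := ((i + 1 : ℕ) : ℝ) * (((i + 1 : ℕ) : ℝ) + 1)) ?_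
        (by linarith)
      linarith
    have hN0 : 0 ≤ SN H χ₁ T := Finset.sum_nonneg fun _ _ => Nat.cast_nonneg _
    obtain ⟨i₀, rfl⟩ : ∃ i, j₀ = i + 1 := ⟨j₀ - 1, by omega⟩
    refine ⟨fun χ _ => ?_, (main i₀ (Finset.mem_range.mpr (by omega))).2, ?_, ?_⟩
    · rw [zeros_eq]
      exact Pool.Agent.TH243.CYC.finite_zset _ _ _ hT1
    · intro j hj1 hjJ
      obtain ⟨i, rfl⟩ : ∃ i, j = i + 1 := ⟨j - 1, by omega⟩
      exact (main i (Finset.mem_range.mpr (by omega))).1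
    · refine le_trans ?_ (main i₀ (Finset.mem_range.mpr (by omega))).1
      exact mul_le_mul_of_nonneg_right (by linarith) hN0
  · obtain ⟨C, ζ, hC, hζ, H⟩ := Pool.Agent.Y762.coset_small
    refine ⟨C, ζ, hC, hζ, ?_⟩
    intro q _ G χ₁ T hT hcard
    obtain ⟨-, r, -⟩ := H q G χ₁ T hT hcard
    rw [← SN_eq, ← SNd_eq] at r
    refine le_trans (le_of_eq ?_) r
    norm_num

end Pool.Agent.Results.MP_f259ea_nt.CosetFamilies
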