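import Pool.Agent.TH803.CL.NearS
import Pool.Agent.TH803.UC.Sets
import Pool.Agent.H370R2.DirGood
import Pool.Agent.H295R2.SI.Fin

/-!
# Short intervals: more distinct zeros of `L(s, χ)` than the Montgomery-Taylor window gives

There are absolute constants `κ > 0` and `h₀ < 1` such that for every primitive Dirichlet character `χ` modulo
`q > 1`, all large `T` and all `T ^ h₀ ≤ H ≤ T`

* the number of distinct zeros of `L(s, χ)` with ordinate in `(T, T + H]` is at least `(3 - c)/2 + κ` times the number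
  of zeros counted with multiplicity, `c = 1/2 + cot(1/√2)/√2 ≤ 1.3275`;
* for `0 < δ ≤ 1/30` there are at least `((3 - c)/2 + κ - 37 δ²) N(T, T + H)` distinct zeros with real part at least
  `1/2` such that each of them within `δ / log T` of the critical line has distance at least `δ / log T` from all the
  others.
-/

set_option autoImplicit false

namespace Pool.Agent.Results.MP_f259ea_nt.ShortIntervalsBeyondMT

/-- the nontrivial zeros of `L(s, χ)` with ordinate in `(T₁, T₂]` -/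
def zeros {q : ℕ} [NeZero q] (χ : DirichletCharacter ℂ q) (T₁ T₂ : ℝ) : Set ℂ :=
  {s : ℂ | DirichletCharacter.LFunction χ s = 0 ∧ 0 < s.re ∧ s.re < 1 ∧ T₁ < s.im ∧ s.im ≤ T₂}

/-- the number of nontrivial zeros with ordinate in `(T₁, T₂]`, counted with multiplicity -/
noncomputable def N {q : ℕ} [NeZero q] (χ : DirichletCharacter ℂ q) (T₁ T₂ : ℝ) : ℕ :=
  ∑ᶠ s ∈ zeros χ T₁ T₂, analyticOrderNatAt (DirichletCharacter.LFunction χ) s

/-- the number of distinct nontrivial zeros with ordinate in `(T₁, T₂]` -/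
noncomputable def Nd {q : ℕ} [NeZero q] (χ : DirichletCharacter ℂ q) (T₁ T₂ : ℝ) : ℕ :=
  (zeros χ T₁ T₂).ncard

/-- the constant `c = 1/2 + cot(1/√2)/√2 = c_MT⁻¹ = 1.3274...` -/
noncomputable def c : ℝ := 1 / 2 + Real.cot (1 / Real.sqrt 2) / Real.sqrt 2

section

variable {q : ℕ} [NeZero q] (χ : DirichletCharacter ℂ q) (T₁ T₂ : ℝ)

theorem zeros_eq : zeros χ T₁ T₂ = H370.zset (DirichletCharacter.LFunction χ) T₁ T₂ := by
  ext s
  simp only [zeros, H370.zset, Set.mem_ofPred_eq]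
  tauto

/-- the sets of zeros that are counted are finite -/
theorem zeros_finite (hχ : χ.IsPrimitive) (h : 0 < T₁) : (zeros χ T₁ T₂).Finite := by
  rw [zeros_eq]
  exact H370.zset_finite' (H370.good_dirichlet χ hχ) T₁ T₂ h

theorem N_eq : N χ T₁ T₂ = H370.NN (DirichletCharacter.LFunction χ) T₁ T₂ := by
  unfold N H370.NN
  rw [zeros_eq]
  rfl

theorem c_eq : c = H295SI.cc 1 := rfl

end

/-- **distinct zeros of Dirichlet L-functions in short intervals** -/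
theorem result :
    (∃ κ h₀ : ℝ, 0 < κ ∧ 0 < h₀ ∧ h₀ < 1 ∧
      ∀ (q : ℕ) [NeZero q] (χ : DirichletCharacter ℂ q), 1 < q → χ.IsPrimitive →
        (∃ T₀ : ℝ, ∀ T : ℝ, T₀ ≤ T → ∀ H : ℝ, T ^ h₀ ≤ H → H ≤ T →
          ((3 - c) / 2 + κ) * (N χ T (T + H) : ℝ) ≤ (Nd χ T (T + H) : ℝ)) ∧
        ∀ δ : ℝ, 0 < δ → δ ≤ 1 / 30 → ∃ T₀ : ℝ, ∀ T : ℝ, T₀ ≤ T →
          ∀ H : ℝ, T ^ h₀ ≤ H → H ≤ T → ∃ M : Finset ℂ,
          (∀ s ∈ M, s ∈ zeros χ T (T + H) ∧ 1 / 2 ≤ s.re) ∧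
          (∀ a ∈ M, ∀ b ∈ M, a ≠ b → a.re < 1 / 2 + δ / Real.log T →
            δ / Real.log T ≤ ‖a - b‖) ∧
          ((3 - c) / 2 + κ - 37 * δ ^ 2) * (N χ T (T + H) : ℝ) ≤ (M.card : ℝ)) ∧
    c ≤ 1.3275 := by
  refine ⟨?_, TH803UC.cc_lt⟩
  obtain ⟨κ, h0, hκ, hh0, hh1, hmain⟩ := TH803CL.sepS_near
  have key : ∀ (q : ℕ) [NeZero q] (χ : DirichletCharacter ℂ q), χ.IsPrimitive →
      ∀ δ : ℝ, 0 < δ → δ ≤ 1 / 30 → ∃ T₀ : ℝ, 1 ≤ T₀ ∧ ∀ T : ℝ, T₀ ≤ T →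
        ∀ H : ℝ, T ^ h0 ≤ H → H ≤ T → ∃ M : Finset ℂ,
        (∀ s ∈ M, s ∈ zeros χ T (T + H) ∧ 1 / 2 ≤ s.re) ∧
        (∀ a ∈ M, ∀ b ∈ M, a ≠ b → a.re < 1 / 2 + δ / Real.log T →
          δ / Real.log T ≤ ‖a - b‖) ∧
        ((3 - c) / 2 + κ / 2 - 37 * δ ^ 2) * (N χ T (T + H) : ℝ) ≤ (M.card : ℝ) := by
    intro q _ χ hχ δ hδ0 hδ1
    obtain ⟨T0, hT0, hT⟩ := hmain (DirichletCharacter.LFunction χ) (H370.good_dirichlet χ hχ)
      δ hδ0 hδ1
    refine ⟨T0, by linarith, fun T hTT H hH1 hH2 => ?_⟩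
    obtain ⟨M, hM, hMre, hsep, hcount⟩ := hT T hTT H hH1 hH2
    have hT1 : 1 ≤ T := by linarith [hT0.trans hTT]
    refine ⟨M, fun s hs => ⟨?_, hMre s hs⟩, fun a ha b hb hab h1 => ?_, ?_⟩
    · rw [zeros_eq]
      exact (H370.mem_Zf (H370.good_dirichlet χ hχ) hT1).mp (hM hs)
    · exact hsep a ha b hb hab (Or.inl (by linarith))
    · rw [N_eq]
      have e1 : (3 - c + κ - 74 * δ ^ 2) *
          (H370.NN (DirichletCharacter.LFunction χ) T (T + H) : ℝ) ≤ 2 * (M.card : ℝ) := hcount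
      linarith
  refine ⟨κ / 4, h0, by positivity, hh0, hh1, fun q _ χ _ hχ => ⟨?_, fun δ hδ0 hδ1 => ?_⟩⟩
  · -- `δ` small
    set δ : ℝ := min (1 / 30) (Real.sqrt (κ / 4 / 37)) with hδd
    have hδ0 : 0 < δ := lt_min (by norm_num) (Real.sqrt_pos.mpr (by positivity))
    have hδ2 : δ ^ 2 ≤ κ / 4 / 37 := by
      have h1 : δ ≤ Real.sqrt (κ / 4 / 37) := min_le_right _ _
      calc δ ^ 2 ≤ Real.sqrt (κ / 4 / 37) ^ 2 := pow_le_pow_left₀ hδ0.le h1 2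
        _ = κ / 4 / 37 := Real.sq_sqrt (by positivity)
    obtain ⟨T0, hT01, hT0⟩ := key q χ hχ δ hδ0 (min_le_left _ _)
    refine ⟨T0, fun T hT H hH1 hH2 => ?_⟩
    obtain ⟨M, hM, -, hcard⟩ := hT0 T hT H hH1 hH2
    have hT1 : 1 ≤ T := hT01.trans hT
    have hfin := zeros_finite χ T (T + H) hχ (by linarith)
    have h1 : M.card ≤ Nd χ T (T + H) := by
      unfold Nd
      rw [← Set.ncard_coe_finset M]
      exact Set.ncard_le_ncard (fun s hs => (hM s hs).1) hfin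
    have h2 : (M.card : ℝ) ≤ (Nd χ T (T + H) : ℝ) := by exact_mod_cast h1
    have hN0 : (0:ℝ) ≤ (N χ T (T + H) : ℝ) := Nat.cast_nonneg _
    have h3 : ((3 - c) / 2 + κ / 4) * (N χ T (T + H) : ℝ) ≤
        ((3 - c) / 2 + κ / 2 - 37 * δ ^ 2) * (N χ T (T + H) : ℝ) :=
      mul_le_mul_of_nonneg_right (by linarith) hN0
    linarith
  · obtain ⟨T0, -, hT0⟩ := key q χ hχ δ hδ0 hδ1
    refine ⟨T0, fun T hT H hH1 hH2 => ?_⟩
    obtain ⟨M, hM, hsep, hcard⟩ := hT0 T hT H hH1 hH2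
    refine ⟨M, hM, hsep, ?_⟩
    have hN0 : (0:ℝ) ≤ (N χ T (T + H) : ℝ) := Nat.cast_nonneg _
    have h3 : ((3 - c) / 2 + κ / 4 - 37 * δ ^ 2) * (N χ T (T + H) : ℝ) ≤
        ((3 - c) / 2 + κ / 2 - 37 * δ ^ 2) * (N χ T (T + H) : ℝ) :=
      mul_le_mul_of_nonneg_right (by linarith) hN0
    linarith

end Pool.Agent.Results.MP_f259ea_nt.ShortIntervalsBeyondMT
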