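import Pool.Agent.Q27.CS1

/-!
# Distinct zeros of Dirichlet L-functions, uniformly in the conductor

For all `0 < h ≤ 1`, `ε > 0` there is a `C` such that for EVERY primitive character `χ` of EVERY modulus `q` and every
`T ≥ C` with `(q T)^h ≤ T`, that is `q ≤ T^((1-h)/h)`, the number of distinct zeros of `L(s, χ)` with
`T < Im s ≤ 2T` is at least `(2 j + 1 - c(h) - ε) / (j (j + 1))` times the number of zeros counted with multiplicity,
for the integers `j ≤ J`; here `c(h) = h/2 + cot(h/√2)/√2 ≤ 1/h + h/3`. In particular the proportion is at least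
`3 h / (3 + h²) - ε`, positive for every `h`, that is for `q` up to an arbitrary fixed power of `T`.
-/

set_option autoImplicit false

namespace Pool.Agent.Results.MP_f259ea_nt.UniformInConductor

/-- the nontrivial zeros of `L(s, χ)` with ordinate in `(T₁, T₂]` -/
def zeros {q : ℕ} [NeZero q] (χ : DirichletCharacter ℂ q) (T₁ T₂ : ℝ) : Set ℂ :=
  {s : ℂ | DirichletCharacter.LFunction χ s = 0 ∧ 0 < s.re ∧ s.re < 1 ∧ T₁ < s.im ∧ s.im ≤ T₂}

/-- the number of nontrivial zeros with ordinate in `(T₁, T₂]`, counted with multiplicity -/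
noncomputable def N {q : ℕ} [NeZero q] (χ : DirichletCharacter ℂ q) (T₁ T₂ : ℝ) : ℕ :=
  ∑ᶠ s ∈ zeros χ T₁ T₂, analyticOrderNatAt (DirichletCharacter.LFunction χ) s

/-- the number of distinct nontrivial zeros with ordinate in `(T₁, T₂]` -/
noncomputable def Nd {q : ℕ} [NeZero q] (χ : DirichletCharacter ℂ q) (T₁ T₂ : ℝ) : ℕ :=
  (zeros χ T₁ T₂).ncard

/-- the constant `c(h) = h/2 + cot(h/√2)/√2`; `c(1) = c_MT⁻¹` -/
noncomputable def c (h : ℝ) : ℝ := h / 2 + Real.cot (h / Real.sqrt 2) / Real.sqrt 2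

theorem zeros_eq {q : ℕ} [NeZero q] (χ : DirichletCharacter ℂ q) (T₁ T₂ : ℝ) :
    zeros χ T₁ T₂ = H370.zset (DirichletCharacter.LFunction χ) T₁ T₂ := by
  ext s
  simp only [zeros, H370.zset, Set.mem_ofPred_eq]
  tauto

theorem N_eq {q : ℕ} [NeZero q] (χ : DirichletCharacter ℂ q) (T₁ T₂ : ℝ) :
    N χ T₁ T₂ = H370.NN (DirichletCharacter.LFunction χ) T₁ T₂ := by
  unfold N H370.NN H370.mult
  rw [zeros_eq]

theorem Nd_eq {q : ℕ} [NeZero q] (χ : DirichletCharacter ℂ q) (T₁ T₂ : ℝ) :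
    Nd χ T₁ T₂ = H370.Nd (DirichletCharacter.LFunction χ) T₁ T₂ := by
  unfold Nd H370.Nd
  rw [zeros_eq]

/-- **distinct zeros of Dirichlet L-functions, uniformly in the conductor** -/
theorem result :
    (∀ (J : ℕ) (h ε : ℝ), 0 < h → h ≤ 1 → 0 < ε → ∃ C : ℝ, 1 ≤ C ∧
      ∀ (q : ℕ) [NeZero q] (χ : DirichletCharacter ℂ q), χ.IsPrimitive →
      ∀ T : ℝ, C ≤ T → (q * T) ^ h ≤ T →
        (zeros χ T (2 * T)).Finite ∧
        (1 - ε) * (T / (2 * Real.pi) * Real.log (q * T)) ≤ (N χ T (2 * T) : ℝ) ∧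
        (∀ j : ℕ, 1 ≤ j → j ≤ J →
          ((2 * j + 1 - c h) / (j * (j + 1)) - ε) * (N χ T (2 * T) : ℝ) ≤ (Nd χ T (2 * T) : ℝ)) ∧
        (3 * h / (3 + h ^ 2) - ε) * (N χ T (2 * T) : ℝ) ≤ (Nd χ T (2 * T) : ℝ)) ∧
    -- more than 83.62 per cent, if `T` is larger than a fixed power of `q`
    (∃ A C : ℝ, 1 ≤ A ∧ 1 ≤ C ∧
      ∀ (q : ℕ) [NeZero q] (χ : DirichletCharacter ℂ q), χ.IsPrimitive →
      ∀ T : ℝ, C ≤ T → (q : ℝ) ^ A ≤ T →
        0.83625 * (N χ T (2 * T) : ℝ) ≤ (Nd χ T (2 * T) : ℝ)) ∧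
    -- the constants
    (∀ h : ℝ, 0 < h → h ≤ 1 → c h ≤ 1 / h + h / 3) := by
  have hle : ∀ h : ℝ, 0 < h → h ≤ 1 → c h ≤ 1 / h + h / 3 := Pool.Agent.Q27.CS.cH_le
  refine ⟨?_, ?_, hle⟩
  · intro J h ε h0 h1 hε
    choose Cj hCj Hj using fun j : ℕ => Pool.Agent.Y762.single_j (j + 1) (by omega) h ε h0 h1 hε
    obtain ⟨C, hC, H⟩ := Pool.Agent.Q27.CS.single_d h ε h0 h1 hε
    obtain ⟨C', hC', H'⟩ := Pool.Agent.Q27.CS.single_s h ε h0 h1 hε
    refine ⟨C + C' + ∑ j ∈ Finset.range J, Cj j, ?_, ?_⟩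
    · have : 0 ≤ ∑ j ∈ Finset.range J, Cj j :=
        Finset.sum_nonneg fun j _ => by linarith [hCj j]
      linarith
    intro q _ χ hχ T hT hqT
    have hs : 0 ≤ ∑ j ∈ Finset.range J, Cj j :=
      Finset.sum_nonneg fun j _ => by linarith [hCj j]
    have hT1 : C ≤ T := by linarith
    have hT2 : C' ≤ T := by linarith
    rw [N_eq, Nd_eq, zeros_eq]
    refine ⟨Pool.Agent.TH243.CYC.finite_zset _ _ _ (hC.trans hT1), (H' q χ T hχ hT2 hqT).2.2,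
      ?_, H q χ T hχ hT1 hqT⟩
    intro j hj1 hjJ
    obtain ⟨i, rfl⟩ : ∃ i, j = i + 1 := ⟨j - 1, by omega⟩
    have hi : Cj i ≤ T := by
      have := Finset.single_le_sum (f := Cj) (fun x _ => by linarith [hCj x])
        (Finset.mem_range.mpr (show i < J by omega))
      linarith
    obtain ⟨r, -⟩ := Hj i q χ T hχ hi hqT
    have hN0 : (0:ℝ) ≤ (H370.NN (DirichletCharacter.LFunction χ) T (2 * T) : ℝ) := Nat.cast_nonneg _
    have hjr : (1:ℝ) ≤ ((i + 1 : ℕ) : ℝ) := by push_cast; have : (0:ℝ) ≤ i := Nat.cast_nonneg i; linarith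
    have hJ : (1:ℝ) ≤ ((i + 1 : ℕ) : ℝ) * (((i + 1 : ℕ) : ℝ) + 1) := by nlinarith
    have hcc : c h = Pool.Agent.Y762.cH h := rfl
    have h3 : ((2 * ((i + 1 : ℕ) : ℝ) + 1 - c h) / (((i + 1 : ℕ) : ℝ) * (((i + 1 : ℕ) : ℝ) + 1)) - ε) *
        (((i + 1 : ℕ) : ℝ) * (((i + 1 : ℕ) : ℝ) + 1)) ≤
        2 * ((i + 1 : ℕ) : ℝ) + 1 - (Pool.Agent.Y762.cH h + ε) := by
      rw [sub_mul, div_mul_cancel₀ _ (by positivity), hcc]
      nlinarith
    have h4 := mul_le_mul_of_nonneg_right h3 hN0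
    refine le_of_mul_le_mul_left (a := ((i + 1 : ℕ) : ℝ) * (((i + 1 : ℕ) : ℝ) + 1)) ?_ (by linarith)
    linarith
  · obtain ⟨A, C, hA, hC, H⟩ := Pool.Agent.Q27.CS.single_num
    refine ⟨A, C, hA, hC, ?_⟩
    intro q _ χ hχ T hT hqT
    rw [N_eq, Nd_eq]
    exact (H q χ T hχ hT hqT).2

end Pool.Agent.Results.MP_f259ea_nt.UniformInConductor
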